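import Pool.Agent.helper71.PQZ.Spec

open Filter Topology Set

set_option autoImplicit false

namespace Pool.Agent.PQZ

theorem FXV_proof (hFXE : FXE_stmt) (hWL1 : WL1_stmt) (hWL2 : WL2_stmt) (hWL3 : WL3_stmt) : FXV_stmt := by
  intro E _ _ ρ hR hc
  obtain ⟨B, hB⟩ := hFXE E ρ hR hc 0
  have hpos : ∀ n : ℕ, (0 : ℝ) < 1 / ((n : ℝ) + 1) := fun n => Nat.one_div_pos_of_nat
  choose u hu1 hu2 using fun n : ℕ => hB (1 / ((n : ℝ) + 1)) (hpos n)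
  obtain ⟨x, hx⟩ := hWL1 E u B hR (fun n => by
    have h := hu1 n
    rwa [sub_zero] at h)
  refine ⟨x, ?_⟩
  intro v hv
  have h1 : WL (fun n => ρ v (u n)) (ρ v x) := hWL3 E u x (ρ v) hx
  have h2 : ∀ ε : ℝ, 0 < ε → ‖ρ v x - x‖ ≤ ε := by
    intro ε hε
    apply hWL2 E (fun n => ρ v (u n)) u (ρ v x) x ε h1 hx
    have h3 : ∀ᶠ n : ℕ in atTop, (1 : ℝ) / ((n : ℝ) + 1) < ε :=
      (tendsto_order.1 tendsto_one_div_add_atTop_nhds_zero_nat).2 ε hε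
    have h4 : (hyperfilter ℕ : Filter ℕ) ≤ atTop := by
      rw [← Nat.cofinite_eq_atTop]
      exact hyperfilter_le_cofinite
    have h5 : ∀ᶠ n : ℕ in (hyperfilter ℕ : Filter ℕ), (1 : ℝ) / ((n : ℝ) + 1) < ε := h4 h3
    filter_upwards [h5] with n hn
    exact (hu2 n v hv).trans hn.le
  have h6 : ‖ρ v x - x‖ ≤ 0 := le_of_forall_pos_le_add (fun ε hε => by
    rw [zero_add]
    exact h2 ε hε)
  have h7 : ρ v x - x = 0 := norm_le_zero_iff.mp h6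
  exact sub_eq_zero.mp h7

end Pool.Agent.PQZ
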