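import Pool.Agent.helper71.PQZ.Spec

open Filter Topology Set

set_option autoImplicit false

namespace Pool.Agent.PQZ

theorem PER_floor (n : ℤ) (t : ℚ) (h0 : 0 ≤ t) (h1 : t < 1) : ⌊(n : ℚ) + t⌋ = n := by
  rw [Int.floor_eq_iff]
  constructor <;> linarith

theorem PER_fract (n : ℤ) (t : ℚ) (h0 : 0 ≤ t) (h1 : t < 1) : Int.fract ((n : ℚ) + t) = t := by
  have h := Int.floor_add_fract ((n : ℚ) + t)
  rw [PER_floor n t h0 h1] at h
  linarith

theorem PER_proof : PER_stmt := by
  intro h h' hm hh h0 h1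
  have h'0 : h' 0 = 0 := hm.injective (by rw [hh, h0])
  have h'1 : h' 1 = 1 := hm.injective (by rw [hh, h1])
  have hm' : StrictMono h' := by
    intro a b hab
    rw [← hm.lt_iff_lt, hh, hh]
    exact hab
  have hlo : ∀ x : ℚ, 0 ≤ h (Int.fract x) := by
    intro x
    have e := hm.monotone (Int.fract_nonneg x)
    rwa [h0] at e
  have hhi : ∀ x : ℚ, h (Int.fract x) < 1 := by
    intro x
    have e := hm (Int.fract_lt_one x)
    rwa [h1] at e
  have hlo' : ∀ x : ℚ, 0 ≤ h' (Int.fract x) := by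
    intro x
    have e := hm'.monotone (Int.fract_nonneg x)
    rwa [h'0] at e
  have hhi' : ∀ x : ℚ, h' (Int.fract x) < 1 := by
    intro x
    have e := hm' (Int.fract_lt_one x)
    rwa [h'1] at e
  obtain ⟨g, hg⟩ := ap_mk (fun x => (⌊x⌋ : ℚ) + h (Int.fract x)) (fun x => (⌊x⌋ : ℚ) + h' (Int.fract x))
    (by
      intro x y hxy
      show (⌊x⌋ : ℚ) + h (Int.fract x) < (⌊y⌋ : ℚ) + h (Int.fract y)
      have hle : ⌊x⌋ ≤ ⌊y⌋ := Int.floor_le_floor hxy.le
      rcases hle.lt_or_eq with hlt | heq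
      · have e1 : (⌊x⌋ : ℚ) + 1 ≤ (⌊y⌋ : ℚ) := by exact_mod_cast hlt
        have e2 := hhi x
        have e3 := hlo y
        linarith
      · have e1 : Int.fract x < Int.fract y := by
          have a1 := Int.floor_add_fract x
          have a2 := Int.floor_add_fract y
          rw [heq] at a1
          linarith
        have e2 := hm e1
        rw [heq]
        linarith)
    (by
      intro x
      show (⌊(⌊x⌋ : ℚ) + h' (Int.fract x)⌋ : ℚ) + h (Int.fract ((⌊x⌋ : ℚ) + h' (Int.fract x))) = x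
      rw [PER_floor _ _ (hlo' x) (hhi' x), PER_fract _ _ (hlo' x) (hhi' x), hh]
      exact Int.floor_add_fract x)
    (by
      intro x
      show (⌊x + 1⌋ : ℚ) + h (Int.fract (x + 1)) = (⌊x⌋ : ℚ) + h (Int.fract x) + 1
      rw [Int.floor_add_one, Int.fract_add_one]
      push_cast
      ring)
  refine ⟨g, ?_⟩
  intro x hx0 hx1
  rw [hg x]
  rcases hx1.lt_or_eq with hlt | heq
  · have e1 : ⌊x⌋ = 0 := Int.floor_eq_zero_iff.mpr ⟨hx0, hlt⟩
    have e2 : Int.fract x = x := Int.fract_eq_self.mpr ⟨hx0, hlt⟩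
    rw [e1, e2]
    simp
  · subst heq
    rw [Int.floor_one, Int.fract_one, h0, h1]
    simp

end Pool.Agent.PQZ
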